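import Mathlib
import Pool.Agent.H66.ExNotKan

/-!
For every `n ≥ 1` there is a finite poset `C` (regarded as a category) such that
`Ex^n (N C)` is a Kan complex but `Ex^(n-1) (N C)` is not.

The poset is the fence `0 < 1 > 2 < ... > 2^n` with `2^n + 1` elements.
-/

open CategoryTheory

universe u

namespace Pool.Agent.Results.MP_61b90e_gt.IteratedExNerve

open Pool.Agent.H66 in
theorem result (n : ℕ) (hn : 1 ≤ n) :
    ∃ (C : Type u) (_ : PartialOrder C) (_ : Finite C),
      SSet.KanComplex ((SSet.ex.{u}.obj)^[n] (nerve C)) ∧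
      ¬ SSet.KanComplex ((SSet.ex.{u}.obj)^[n - 1] (nerve C)) := by
  obtain ⟨m, rfl⟩ : ∃ m, n = m + 1 := ⟨n - 1, by omega⟩
  refine ⟨Fence.{u} (2 * 2 ^ m), inferInstance, ?_, kan m, ?_⟩
  · exact Finite.of_injective (fun x : Fence.{u} (2 * 2 ^ m) ↦
      (⟨x.val, Nat.lt_succ_of_le x.le⟩ : Fin (2 * 2 ^ m + 1)))
      (fun x y h ↦ Fence.ext' (congrArg Fin.val h))
  · simpa using! not_kan m

end Pool.Agent.Results.MP_61b90e_gt.IteratedExNerve
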